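import Mathlib

open Set MeasureTheory Filter Topology
open scoped Cardinal ENNReal

namespace Pool.Agent.Results.MP_ed4d4f_gt.SierpinskiProducts

/-- A Sierpinski set: an uncountable set of reals that meets every Lebesgue null set in a
countable set. -/
def IsSierpinski (S : Set ℝ) : Prop :=
  ¬ S.Countable ∧ ∀ N : Set ℝ, volume N = 0 → (S ∩ N).Countable

/-- Menger's property of a topological space. -/
def IsMenger (X : Type) [TopologicalSpace X] : Prop :=
  ∀ U : ℕ → Set (Set X), (∀ n, (∀ u ∈ U n, IsOpen u) ∧ ⋃₀ (U n) = univ) →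
    ∃ F : ℕ → Set (Set X), (∀ n, F n ⊆ U n ∧ (F n).Finite) ∧ (⋃ n, ⋃₀ (F n)) = univ

/-- Hurewicz's property of a topological space. -/
def IsHurewicz (X : Type) [TopologicalSpace X] : Prop :=
  ∀ U : ℕ → Set (Set X), (∀ n, (∀ u ∈ U n, IsOpen u) ∧ ⋃₀ (U n) = univ) →
    ∃ F : ℕ → Set (Set X), (∀ n, F n ⊆ U n ∧ (F n).Finite) ∧
      ∀ x : X, ∀ᶠ n in atTop, x ∈ ⋃₀ (F n)

/-- A space is productively Hurewicz if its product with every Tychonoff Hurewicz space is
Hurewicz. -/
def IsProductivelyHurewicz (X : Type) [TopologicalSpace X] : Prop :=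
  ∀ (Y : Type) [TopologicalSpace Y] [T35Space Y], IsHurewicz Y → IsHurewicz (X × Y)

/-! ### Hurewicz implies Menger -/

theorem IsHurewicz.isMenger {X : Type} [TopologicalSpace X] (h : IsHurewicz X) : IsMenger X := by
  intro U hU
  obtain ⟨F, hF, hx⟩ := h U hU
  refine ⟨F, hF, ?_⟩
  apply eq_univ_of_forall
  intro x
  obtain ⟨n, hn⟩ := (hx x).exists
  exact mem_iUnion.2 ⟨n, hn⟩

/-! ### Sierpinski sets are Hurewicz -/

theorem IsSierpinski.isHurewicz {S : Set ℝ} (hS : IsSierpinski S) : IsHurewicz S := by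
  intro U hU
  have hne : Nonempty S := by
    by_contra h
    rw [not_nonempty_iff] at h
    exact hS.1 (by
      have : S = ∅ := isEmpty_coe_sort.1 h
      rw [this]; exact countable_empty)
  -- countable subcovers
  have h1 : ∀ n, ∃ f : ℕ → Set S, (∀ k, f k ∈ U n) ∧ (⋃ k, f k) = univ := by
    intro n
    obtain ⟨T, hTc, hTU, hT⟩ := TopologicalSpace.isOpen_sUnion_countable (U n) (hU n).1
    have hTne : T.Nonempty := by
      by_contra h
      rw [not_nonempty_iff_eq_empty] at h
      rw [h, sUnion_empty, (hU n).2] at hT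
      exact (empty_ne_univ hT)
    obtain ⟨f, hf⟩ := hTc.exists_eq_range hTne
    refine ⟨f, fun k => hTU (hf ▸ mem_range_self k), ?_⟩
    rw [← sUnion_range, ← hf, hT, (hU n).2]
  choose u huU hu using h1
  have h2 : ∀ n k, ∃ V : Set ℝ, IsOpen V ∧ (Subtype.val ⁻¹' V : Set S) = u n k := by
    intro n k
    exact isOpen_induced_iff.1 ((hU n).1 _ (huU n k))
  choose V hVo hV using h2
  -- a finite measure equivalent to Lebesgue measure
  let ν : Measure ℝ := (volume : Measure ℝ).toFinite
  have h3 : ∀ n, ∃ k, ν ((⋃ j, V n j) \ (⋃ j ∈ Iic k, V n j)) ≤ (2⁻¹ : ℝ≥0∞) ^ n := by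
    intro n
    have hanti : Antitone (fun k => (⋃ j, V n j) \ (⋃ j ∈ Iic k, V n j)) := by
      intro a b hab
      apply sdiff_le_sdiff le_rfl
      exact biUnion_subset_biUnion_left (Iic_subset_Iic.2 hab)
    have hmeas : ∀ k, MeasurableSet ((⋃ j, V n j) \ (⋃ j ∈ Iic k, V n j)) := by
      intro k
      exact (isOpen_iUnion fun j => hVo n j).measurableSet.diff
        (isOpen_biUnion fun j _ => hVo n j).measurableSet
    have hlim := tendsto_measure_iInter_atTop (μ := ν) (fun k => (hmeas k).nullMeasurableSet) hanti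
      ⟨0, measure_ne_top _ _⟩
    have hemp : (⋂ k, (⋃ j, V n j) \ (⋃ j ∈ Iic k, V n j)) = ∅ := by
      apply eq_empty_of_forall_notMem
      intro x hx
      rw [mem_iInter] at hx
      obtain ⟨j, hj⟩ := mem_iUnion.1 (hx 0).1
      exact (hx j).2 (mem_biUnion (mem_Iic.2 le_rfl) hj)
    rw [hemp, measure_empty] at hlim
    have hpos : (0 : ℝ≥0∞) < (2⁻¹ : ℝ≥0∞) ^ n := by
      apply ENNReal.pow_pos
      simp
    obtain ⟨k, hk⟩ := (hlim.eventually (gt_mem_nhds hpos)).exists
    exact ⟨k, hk.le⟩
  choose k hk using h3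
  have hsum : (∑' n, ν ((⋃ j, V n j) \ (⋃ j ∈ Iic (k n), V n j))) ≠ ∞ := by
    apply ne_top_of_le_ne_top _ (ENNReal.tsum_le_tsum hk)
    rw [ENNReal.tsum_geometric]
    simp
  have hae := ae_eventually_notMem hsum
  have hae' : ∀ᵐ x ∂(volume : Measure ℝ),
      ∀ᶠ n in atTop, x ∉ (⋃ j, V n j) \ (⋃ j ∈ Iic (k n), V n j) :=
    (absolutelyContinuous_toFinite (volume : Measure ℝ)).ae_le hae
  rw [ae_iff] at hae'
  have hcount := hS.2 _ hae'
  set B : Set ℝ := {x | ¬ ∀ᶠ n in atTop, x ∉ (⋃ j, V n j) \ (⋃ j ∈ Iic (k n), V n j)} with hB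
  have hcount' : ({x : S | (x : ℝ) ∈ B}).Countable := by
    have := hcount.preimage (f := (Subtype.val : S → ℝ)) Subtype.val_injective
    refine this.mono ?_
    intro x hx
    exact ⟨x.2, hx⟩
  obtain ⟨c, hc⟩ := countable_iff_exists_subset_range.1 hcount'
  have h4 : ∀ n (x : S), ∃ w ∈ U n, x ∈ w := by
    intro n x
    have : x ∈ ⋃₀ (U n) := by rw [(hU n).2]; trivial
    exact this
  choose w hwU hw using h4
  refine ⟨fun n => (u n '' Iic (k n)) ∪ ((fun i => w n (c i)) '' Iic n), ?_, ?_⟩
  · intro n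
    refine ⟨?_, ?_⟩
    · rintro s (⟨j, -, rfl⟩ | ⟨i, -, rfl⟩)
      · exact huU n j
      · exact hwU n (c i)
    · exact ((finite_Iic _).image _).union ((finite_Iic _).image _)
  · intro x
    by_cases hxB : (x : ℝ) ∈ B
    · obtain ⟨i, hi⟩ := hc hxB
      filter_upwards [eventually_ge_atTop i] with n hn
      refine ⟨w n (c i), Or.inr ⟨i, hn, rfl⟩, ?_⟩
      rw [hi]; exact hw n x
    · rw [hB] at hxB
      simp only [mem_ofPred_eq, not_not] at hxB
      filter_upwards [hxB] with n hn
      have hx1 : (x : ℝ) ∈ ⋃ j, V n j := by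
        have : x ∈ ⋃ j, u n j := by rw [hu n]; trivial
        obtain ⟨j, hj⟩ := mem_iUnion.1 this
        rw [← hV n j] at hj
        exact mem_iUnion.2 ⟨j, hj⟩
      have hx2 : (x : ℝ) ∈ ⋃ j ∈ Iic (k n), V n j := by
        by_contra hcon
        exact hn ⟨hx1, hcon⟩
      obtain ⟨j, hj, hxj⟩ := mem_iUnion₂.1 hx2
      refine ⟨u n j, Or.inl ⟨j, hj, rfl⟩, ?_⟩
      rw [← hV n j]; exact hxj


/-! ### A measure-zero Cantor set and the sets of slow sequences in it -/

/-- The coding of `ℕ → Bool` into the real line by a Cantor set of measure zero. -/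
noncomputable def cod (f : ℕ → Bool) : ℝ := Cardinal.cantorFunction (1 / 3) f

theorem cod_injective : Function.Injective cod :=
  Cardinal.cantorFunction_injective (by norm_num) (by norm_num)

theorem continuous_cod : Continuous cod := by
  unfold cod Cardinal.cantorFunction
  refine continuous_tsum (u := fun n => (1 / 3 : ℝ) ^ n) ?_
    (summable_geometric_of_lt_one (by norm_num) (by norm_num)) ?_
  · intro n
    have : (fun f : ℕ → Bool => Cardinal.cantorFunctionAux (1 / 3) f n)
        = (fun b : Bool => cond b ((1 / 3 : ℝ) ^ n) 0) ∘ fun f : ℕ → Bool => f n := rfl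
    rw [this]
    exact continuous_of_discreteTopology.comp (continuous_apply n)
  · intro n f
    unfold Cardinal.cantorFunctionAux
    cases f n <;> simp

theorem volume_range_cod : volume (range cod) = 0 := by
  have hcomp : IsCompact (range cod) := isCompact_range continuous_cod
  have hfin : volume (range cod) ≠ ∞ := hcomp.measure_lt_top.ne
  have hsub : range cod ⊆ (fun x : ℝ => (1 / 3 : ℝ) * x) '' range cod ∪
      (fun x : ℝ => 1 + x) '' ((fun x : ℝ => (1 / 3 : ℝ) * x) '' range cod) := by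
    rintro _ ⟨f, rfl⟩
    have := Cardinal.cantorFunction_succ (c := 1 / 3) f (by norm_num) (by norm_num)
    cases h : f 0
    · left
      refine ⟨cod (fun n => f (n + 1)), mem_range_self _, ?_⟩
      simp only [cod]
      rw [this, h]; simp
    · right
      refine ⟨(1 / 3 : ℝ) * cod (fun n => f (n + 1)), ⟨_, mem_range_self _, rfl⟩, ?_⟩
      simp only [cod]
      rw [this, h]; simp
  have himg : volume ((fun x : ℝ => (1 / 3 : ℝ) * x) '' range cod)
      = ENNReal.ofReal (1 / 3) * volume (range cod) := by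
    have h2 := Real.volume_preimage_mul_left (a := (3 : ℝ)) (by norm_num) (range cod)
    have h3 : (fun x : ℝ => (1 / 3 : ℝ) * x) '' range cod = (fun x : ℝ => 3 * x) ⁻¹' range cod := by
      ext x
      constructor
      · rintro ⟨y, hy, rfl⟩
        simp only [mem_preimage]
        convert hy using 1
        ring
      · intro hx
        exact ⟨3 * x, hx, by ring⟩
    rw [h3, h2]
    congr 1
    rw [abs_of_pos (by norm_num)]
    norm_num
  have himg2 : volume ((fun x : ℝ => 1 + x) '' ((fun x : ℝ => (1 / 3 : ℝ) * x) '' range cod))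
      = ENNReal.ofReal (1 / 3) * volume (range cod) := by
    rw [image_add_left, measure_preimage_add, himg]
  have hle : volume (range cod) ≤ ENNReal.ofReal (2 / 3) * volume (range cod) := by
    calc volume (range cod) ≤ _ := measure_mono hsub
      _ ≤ _ := measure_union_le _ _
      _ = ENNReal.ofReal (1 / 3) * volume (range cod)
          + ENNReal.ofReal (1 / 3) * volume (range cod) := by rw [himg2, himg]
      _ = ENNReal.ofReal (2 / 3) * volume (range cod) := by
        rw [← add_mul, ← ENNReal.ofReal_add (by norm_num) (by norm_num)]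
        norm_num
  have h0 : (volume (range cod)).toReal ≤ 2 / 3 * (volume (range cod)).toReal := by
    have := ENNReal.toReal_mono (ENNReal.mul_ne_top ENNReal.ofReal_ne_top hfin) hle
    rwa [ENNReal.toReal_mul, ENNReal.toReal_ofReal (by norm_num)] at this
  have h1 : 0 ≤ (volume (range cod)).toReal := ENNReal.toReal_nonneg
  have h2 : (volume (range cod)).toReal = 0 := by linarith
  rcases (ENNReal.toReal_eq_zero_iff _).1 h2 with h | h
  · exact h
  · exact absurd h hfin

/-- The number of `true`s among the first `k` values of `f`. -/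
def cnt (f : ℕ → Bool) (k : ℕ) : ℕ := ∑ i ∈ Finset.range k, (if f i = true then 1 else 0)

theorem continuous_cnt (k : ℕ) : Continuous fun f : ℕ → Bool => cnt f k := by
  unfold cnt
  apply continuous_finsetSum
  intro i _
  have : (fun f : ℕ → Bool => if f i = true then (1 : ℕ) else 0)
      = (fun b : Bool => if b = true then (1 : ℕ) else 0) ∘ fun f : ℕ → Bool => f i := rfl
  rw [this]
  exact continuous_of_discreteTopology.comp (continuous_apply i)

theorem cnt_mono (f : ℕ → Bool) : Monotone (cnt f) := by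
  intro a b hab
  unfold cnt
  exact Finset.sum_le_sum_of_subset (Finset.range_mono hab)

theorem cnt_succ (f : ℕ → Bool) (k : ℕ) :
    cnt f (k + 1) = cnt f k + (if f k = true then 1 else 0) := by
  unfold cnt
  rw [Finset.sum_range_succ]

/-- Sequences with at most `n` `true`s among the first `k` values. -/
def slow (n k : ℕ) : Set (ℕ → Bool) := {f | cnt f k ≤ n}

theorem isClosed_slow (n k : ℕ) : IsClosed (slow n k) :=
  isClosed_le (continuous_cnt k) continuous_const

theorem isClosed_cod_slow (n k : ℕ) : IsClosed (cod '' slow n k) :=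
  ((isClosed_slow n k).isCompact.image continuous_cod).isClosed

theorem slow_anti (n : ℕ) {k l : ℕ} (h : k ≤ l) : slow n l ⊆ slow n k :=
  fun f hf => (cnt_mono f h).trans hf

/-- The countable set of codes of eventually false sequences. -/
def exc : Set ℝ := cod '' {f | ∃ m, ∀ i ≥ m, f i = false}

theorem countable_exc : exc.Countable := by
  apply Countable.image
  have : {f : ℕ → Bool | ∃ m, ∀ i ≥ m, f i = false} ⊆
      ⋃ m : ℕ, range (fun (g : Fin m → Bool) (i : ℕ) => if h : i < m then g ⟨i, h⟩ else false) := by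
    rintro f ⟨m, hm⟩
    refine mem_iUnion.2 ⟨m, fun i => f i, ?_⟩
    funext i
    by_cases h : i < m
    · simp [h]
    · simp [h, hm i (not_lt.1 h)]
  exact (countable_iUnion fun m => countable_range _).mono this

theorem exists_notMem_slow {z : ℝ} (hz : z ∉ exc) (n : ℕ) : ∃ k, z ∉ cod '' slow n k := by
  by_contra hcon
  push Not at hcon
  obtain ⟨f, -, hf⟩ := hcon 0
  have hall : ∀ k, cnt f k ≤ n := by
    intro k
    obtain ⟨g, hg, hgz⟩ := hcon k
    have : g = f := cod_injective (hgz.trans hf.symm)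
    rw [← this]; exact hg
  apply hz
  refine ⟨f, ?_, hf⟩
  -- a bounded monotone sequence of naturals is eventually constant
  have hbdd : BddAbove (range (cnt f)) := ⟨n, by rintro _ ⟨k, rfl⟩; exact hall k⟩
  obtain ⟨m, hm⟩ : ∃ m, cnt f m = sSup (range (cnt f)) := by
    have := Nat.sSup_mem (range_nonempty (cnt f)) hbdd
    exact this
  refine ⟨m, fun i hi => ?_⟩
  by_contra hne
  have htrue : f i = true := by simpa using hne
  have h1 : cnt f (i + 1) = cnt f i + 1 := by rw [cnt_succ, if_pos htrue]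
  have h2 : cnt f (i + 1) ≤ sSup (range (cnt f)) := le_csSup hbdd (mem_range_self _)
  have h3 : cnt f m ≤ cnt f i := cnt_mono f hi
  omega

/-- Sequences that are slow at every stage. -/
def allSlow (d : ℕ → ℕ) : Set (ℕ → Bool) := {f | ∀ n, cnt f (d n) ≤ n}

theorem isClosed_allSlow (d : ℕ → ℕ) : IsClosed (allSlow d) := by
  have : allSlow d = ⋂ n, slow n (d n) := by
    ext f; simp [allSlow, slow]
  rw [this]
  exact isClosed_iInter fun n => isClosed_slow n (d n)

theorem not_countable_allSlow {d : ℕ → ℕ} (hd : StrictMono d) : ¬ (allSlow d).Countable := by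
  classical
  -- spread a sequence along `d`
  let spread : (ℕ → Bool) → (ℕ → Bool) := fun g i => decide (∃ n, d n = i ∧ g n = true)
  have hspread : ∀ g n, spread g (d n) = g n := by
    intro g n
    simp only [spread]
    cases hg : g n
    · rw [decide_eq_false_iff_not]
      rintro ⟨m, hm, hgm⟩
      have := hd.injective hm
      rw [this] at hgm
      rw [hgm] at hg
      exact absurd hg (by decide)
    · rw [decide_eq_true_iff]
      exact ⟨n, rfl, hg⟩
  have hinj : Function.Injective spread := by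
    intro g g' h
    funext n
    rw [← hspread g n, h, hspread g' n]
  have hmem : ∀ g, spread g ∈ allSlow d := by
    intro g n
    unfold cnt
    rw [← Finset.card_filter]
    have hsub : (Finset.range (d n)).filter (fun i => spread g i = true) ⊆
        (Finset.range n).image d := by
      intro i hi
      rw [Finset.mem_filter, Finset.mem_range] at hi
      obtain ⟨hi, hs⟩ := hi
      simp only [spread, decide_eq_true_iff] at hs
      obtain ⟨m, rfl, -⟩ := hs
      exact Finset.mem_image_of_mem _ (Finset.mem_range.2 (hd.lt_iff_lt.1 hi))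
    calc _ ≤ _ := Finset.card_le_card hsub
      _ ≤ (Finset.range n).card := Finset.card_image_le
      _ = n := Finset.card_range n
  have h4 : #(ℕ → Bool) = 𝔠 := by simp
  intro hcount
  have h1 : (univ : Set (ℕ → Bool)).Countable := by
    have := hcount.preimage (f := spread) hinj
    refine this.mono ?_
    intro g _
    exact hmem g
  have h2 : Countable (ℕ → Bool) := countable_univ_iff.1 h1
  have h3 : #(ℕ → Bool) ≤ ℵ₀ := Cardinal.mk_le_aleph0_iff.2 h2
  rw [h4] at h3
  exact absurd h3 (not_le.2 Cardinal.aleph0_lt_continuum)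

/-! ### The Fubini step -/

theorem key {S : Set ℝ} (hS : IsSierpinski S) {P : Set ℝ} (hPm : MeasurableSet P)
    (hPc : ¬ P.Countable) (hP0 : volume P = 0) {N : Set ℝ} (hNm : MeasurableSet N)
    (hN0 : volume N = 0) {Q : Set ℝ} (hQ : Q.Countable) :
    ∃ x : ℝ, x ∉ N ∧ (∀ s ∈ S, s + x ∉ Q) ∧ ∃ t ∈ S, t + x ∈ P := by
  have : StandardBorelSpace P := hPm.standardBorel
  have hunc : ¬ Countable P := fun h => hPc (countable_coe_iff.1 h)
  have hR : ¬ Countable ℝ := fun h => Cardinal.not_countable_real (countable_univ_iff.2 h)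
  let e : ℝ ≃ᵐ P := PolishSpace.measurableEquivOfNotCountable hR hunc
  let θ : ℝ → ℝ := fun u => (e u : ℝ)
  have hθm : Measurable θ := measurable_subtype_coe.comp e.measurable
  have hθi : Function.Injective θ := Subtype.val_injective.comp e.injective
  have hθP : ∀ u, θ u ∈ P := fun u => (e u).2
  -- for every `u`, for almost every `t`, `θ u - t ∉ N`
  have h1 : ∀ᵐ u ∂(volume : Measure ℝ), ∀ᵐ t ∂(volume : Measure ℝ), θ u - t ∉ N := by
    refine Eventually.of_forall fun u => ?_
    have hmp := Measure.measurePreserving_sub_left (volume : Measure ℝ) (θ u)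
    have := hmp.measure_preimage hNm.nullMeasurableSet
    rw [hN0] at this
    rw [ae_iff]
    have heq : {a | ¬ θ u - a ∉ N} = (fun t => θ u - t) ⁻¹' N := by
      ext a; simp
    rw [heq]; exact this
  have hmeas : MeasurableSet {x : ℝ × ℝ | θ x.1 - x.2 ∉ N} := by
    have hf : Measurable fun x : ℝ × ℝ => θ x.1 - x.2 :=
      (hθm.comp measurable_fst).sub measurable_snd
    exact (hf hNm).compl
  have h2 : ∀ᵐ t ∂(volume : Measure ℝ), ∀ᵐ u ∂(volume : Measure ℝ), θ u - t ∉ N :=
    (Measure.ae_ae_comm (p := fun u t => θ u - t ∉ N) hmeas).1 h1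
  -- pick a good `t` in `S`
  obtain ⟨t, htS, ht⟩ : ∃ t ∈ S, ∀ᵐ u ∂(volume : Measure ℝ), θ u - t ∉ N := by
    by_contra hcon
    push Not at hcon
    rw [ae_iff] at h2
    have hc := hS.2 _ h2
    apply hS.1
    refine hc.mono ?_
    intro s hs
    exact ⟨hs, hcon s hs⟩
  -- the set of `u` that are bad for `Q`
  have h3 : ({u : ℝ | ∃ s ∈ S, s + (θ u - t) ∈ Q}).Countable := by
    have hsub : {u : ℝ | ∃ s ∈ S, s + (θ u - t) ∈ Q} ⊆
        ⋃ q ∈ Q, θ ⁻¹' ((fun s => q + t - s) '' (S ∩ (fun s => q + t - s) ⁻¹' P)) := by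
      rintro u ⟨s, hs, hq⟩
      refine mem_iUnion₂.2 ⟨_, hq, ?_⟩
      have heq : s + (θ u - t) + t - s = θ u := by ring
      refine ⟨s, ⟨hs, ?_⟩, heq⟩
      simp only [mem_preimage]
      rw [heq]; exact hθP u
    refine Countable.mono hsub (hQ.biUnion fun q _ => ?_)
    apply Countable.preimage _ hθi
    apply Countable.image
    apply hS.2
    have hmp := Measure.measurePreserving_sub_left (volume : Measure ℝ) (q + t)
    rw [hmp.measure_preimage hPm.nullMeasurableSet, hP0]
  have h4 : ∀ᵐ u ∂(volume : Measure ℝ), u ∉ {u : ℝ | ∃ s ∈ S, s + (θ u - t) ∈ Q} :=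
    h3.ae_notMem _
  obtain ⟨u, hu1, hu2⟩ := (ht.and h4).exists
  refine ⟨θ u - t, hu1, ?_, t, htS, ?_⟩
  · intro s hs hq
    exact hu2 ⟨s, hs, hq⟩
  · have : t + (θ u - t) = θ u := by ring
    rw [this]; exact hθP u

/-! ### The construction -/

/-- The index type: a measurable null set together with a function `ℕ → ℕ`. -/
abbrev Idx : Type := {N : Set ℝ // MeasurableSet N ∧ volume N = 0} × (ℕ → ℕ)

theorem mk_idx_le : #Idx ≤ 𝔠 := by
  rw [Cardinal.mk_prod]
  simp only [Cardinal.lift_id]
  have h1 : #{N : Set ℝ // MeasurableSet N ∧ volume N = 0} ≤ 𝔠 := by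
    have h2 : #{N : Set ℝ // MeasurableSet N} ≤ 𝔠 := by
      obtain ⟨b, hb, -, hbo⟩ := TopologicalSpace.exists_countable_basis ℝ
      have hgen : borel ℝ = MeasurableSpace.generateFrom b := hbo.borel_eq_generateFrom
      have := MeasurableSpace.cardinal_measurableSet_le_continuum (s := b)
        ((Cardinal.le_aleph0_iff_set_countable.2 hb).trans Cardinal.aleph0_le_continuum)
      rw [← hgen, ← BorelSpace.measurable_eq (α := ℝ)] at this
      exact this
    refine le_trans (Cardinal.mk_le_of_injective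
      (f := fun N : {N : Set ℝ // MeasurableSet N ∧ volume N = 0} =>
        (⟨N.1, N.2.1⟩ : {N : Set ℝ // MeasurableSet N})) ?_) h2
    intro a b hab
    apply Subtype.ext
    exact congrArg (fun z : {N : Set ℝ // MeasurableSet N} => z.1) hab
  have h3 : #(ℕ → ℕ) ≤ 𝔠 := by simp
  calc _ ≤ 𝔠 * 𝔠 := mul_le_mul' h1 h3
    _ = 𝔠 := Cardinal.continuum_mul_self

/-- Under the continuum hypothesis, for every Sierpinski set `S` there is a Sierpinski set `Y`
whose sums with `S` avoid the countable set `exc` and are cofinally slow. -/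
theorem exists_Y (CH : (𝔠 : Cardinal.{0}) = ℵ₁) {S : Set ℝ} (hS : IsSierpinski S) :
    ∃ Y : Set ℝ, IsSierpinski Y ∧ (∀ s ∈ S, ∀ y ∈ Y, s + y ∉ exc) ∧
      ∀ d : ℕ → ℕ, StrictMono d → ∃ s ∈ S, ∃ y ∈ Y, s + y ∈ cod '' allSlow d := by
  classical
  obtain ⟨r, hwo, hr⟩ := Cardinal.exists_ord_eq Idx
  have hcountable : ∀ j : Idx, ({i : Idx | r i j}).Countable := by
    intro j
    have h1 : Ordinal.typein r j < Ordinal.type r := Ordinal.typein_lt_type r j
    rw [← hr, Cardinal.lt_ord] at h1
    have h2 : #{i : Idx | r i j} < ℵ₁ := by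
      have h3 : #{i : Idx | r i j} = (Ordinal.typein r j).card := rfl
      rw [h3]
      exact h1.trans_le (mk_idx_le.trans CH.le)
    rw [← Cardinal.le_aleph0_iff_set_countable]
    rw [← Cardinal.succ_aleph0] at h2
    exact Order.lt_succ_iff.1 h2
  have hex : ∀ j : Idx, ∃ x : ℝ, x ∉ (⋃ i ∈ {i : Idx | r i j}, i.1.1) ∪ j.1.1 ∧
      (∀ s ∈ S, s + x ∉ exc) ∧ (StrictMono j.2 → ∃ s ∈ S, s + x ∈ cod '' allSlow j.2) := by
    intro j
    have hNm : MeasurableSet ((⋃ i ∈ {i : Idx | r i j}, i.1.1) ∪ j.1.1) := by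
      apply MeasurableSet.union _ j.1.2.1
      exact MeasurableSet.biUnion (hcountable j) fun i _ => i.1.2.1
    have hN0 : volume ((⋃ i ∈ {i : Idx | r i j}, i.1.1) ∪ j.1.1) = 0 := by
      rw [measure_union_null_iff]
      refine ⟨?_, j.1.2.2⟩
      rw [measure_biUnion_null_iff (hcountable j)]
      exact fun i _ => i.1.2.2
    -- we may replace `j.2` by the identity if it is not strictly monotone
    let d : ℕ → ℕ := if StrictMono j.2 then j.2 else id
    have hd : StrictMono d := by
      by_cases h : StrictMono j.2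
      · simp only [d, h, if_true]
      · simp only [d, h, if_false]; exact strictMono_id
    have hcl : IsClosed (cod '' allSlow d) :=
      ((isClosed_allSlow d).isCompact.image continuous_cod).isClosed
    have hunc : ¬ (cod '' allSlow d).Countable := by
      intro h
      apply not_countable_allSlow hd
      have := h.preimage (f := cod) cod_injective
      exact this.mono (subset_preimage_image _ _)
    have hnull : volume (cod '' allSlow d) = 0 :=
      measure_mono_null (image_subset_range _ _) volume_range_cod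
    obtain ⟨x, hx1, hx2, s, hs, hsx⟩ := key hS hcl.measurableSet hunc hnull hNm hN0 countable_exc
    refine ⟨x, hx1, hx2, fun h => ⟨s, hs, ?_⟩⟩
    simp only [d, h, if_true] at hsx
    exact hsx
  choose x hxN hxe hxd using hex
  refine ⟨range x, ⟨?_, ?_⟩, ?_, ?_⟩
  · intro hc
    let j : Idx := (⟨range x, hc.measurableSet, hc.measure_zero _⟩, id)
    exact hxN j (Or.inr (mem_range_self j))
  · intro N hN
    obtain ⟨M, hNM, hMm, hM0⟩ := exists_measurable_superset_of_null hN
    let j : Idx := (⟨M, hMm, hM0⟩, id)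
    refine ((hcountable j).image x).mono ?_
    rintro _ ⟨⟨i, rfl⟩, hi⟩
    refine ⟨i, ?_, rfl⟩
    have hiM : x i ∈ j.1.1 := hNM hi
    rcases trichotomous_of r i j with h | h | h
    · exact h
    · exfalso
      apply hxN i
      right
      rw [h]
      exact h ▸ hiM
    · exfalso
      apply hxN i
      left
      exact mem_biUnion (show j ∈ {k : Idx | r k i} from h) hiM
  · rintro s hs _ ⟨j, rfl⟩
    exact hxe j s hs
  · intro d hd
    let j : Idx := (⟨∅, MeasurableSet.empty, measure_empty⟩, d)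
    obtain ⟨s, hs, hsx⟩ := hxd j hd
    exact ⟨s, hs, x j, mem_range_self j, hsx⟩

theorem not_isMenger_prod {S Y : Set ℝ} (h1 : ∀ s ∈ S, ∀ y ∈ Y, s + y ∉ exc)
    (h2 : ∀ d : ℕ → ℕ, StrictMono d → ∃ s ∈ S, ∃ y ∈ Y, s + y ∈ cod '' allSlow d) :
    ¬ IsMenger (S × Y) := by
  classical
  intro hM
  let W : ℕ → ℕ → Set (S × Y) := fun n k => {p | (p.1 : ℝ) + p.2 ∉ cod '' slow n k}
  have hW : ∀ n k, IsOpen (W n k) := by
    intro n k
    have hc : Continuous fun p : S × Y => (p.1 : ℝ) + p.2 := by fun_prop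
    exact (isClosed_cod_slow n k).isOpen_compl.preimage hc
  have hmono : ∀ n, Monotone (W n) := by
    intro n k l hkl p hp hcon
    exact hp (image_mono (slow_anti n hkl) hcon)
  obtain ⟨F, hF, hcov⟩ := hM (fun n => range (W n)) (by
    intro n
    refine ⟨?_, ?_⟩
    · rintro _ ⟨k, rfl⟩; exact hW n k
    · rw [sUnion_range]
      apply eq_univ_of_forall
      intro p
      obtain ⟨k, hk⟩ := exists_notMem_slow (h1 _ p.1.2 _ p.2.2) n
      exact mem_iUnion.2 ⟨k, hk⟩)
  -- bound the finite families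
  have hbd : ∀ n, ∃ k, ⋃₀ (F n) ⊆ W n k := by
    intro n
    obtain ⟨hFs, hFf⟩ := hF n
    have hc : ∀ u ∈ F n, ∃ k, u ⊆ W n k := by
      intro u hu
      obtain ⟨k, rfl⟩ := hFs hu
      exact ⟨k, le_rfl⟩
    choose! k hk using hc
    obtain ⟨m, hm⟩ := (hFf.image k).bddAbove
    refine ⟨m, sUnion_subset fun u hu => (hk u hu).trans (hmono n (hm (mem_image_of_mem k hu)))⟩
  choose k hk using hbd
  -- a strictly monotone majorant
  obtain ⟨d, hd, hkd⟩ : ∃ d : ℕ → ℕ, StrictMono d ∧ ∀ n, k n ≤ d n := by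
    refine ⟨fun n => ∑ i ∈ Finset.range (n + 1), (k i + 1), ?_, ?_⟩
    · apply strictMono_nat_of_lt_succ
      intro n
      rw [Finset.sum_range_succ (fun i => k i + 1) (n + 1)]
      omega
    · intro n
      show k n ≤ ∑ i ∈ Finset.range (n + 1), (k i + 1)
      rw [Finset.sum_range_succ]
      omega
  obtain ⟨s, hs, y, hy, f, hf, hsy⟩ := h2 d hd
  have hp : ((⟨s, hs⟩, ⟨y, hy⟩) : S × Y) ∈ ⋃ n, ⋃₀ (F n) := by rw [hcov]; trivial
  obtain ⟨n, hn⟩ := mem_iUnion.1 hp
  apply hk n hn
  refine ⟨f, ?_, hsy⟩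
  exact slow_anti n (hkd n) (hf n)

/-- Under the continuum hypothesis no Sierpinski set is productively Hurewicz: for every
Sierpinski set `S` there is a Sierpinski set `Y` (a Hurewicz space) such that `S × Y` is
not even Menger. -/
theorem result (CH : (𝔠 : Cardinal.{0}) = ℵ₁) (S : Set ℝ) (hS : IsSierpinski S) :
    (∃ Y : Set ℝ, IsSierpinski Y ∧ IsHurewicz Y ∧ ¬ IsMenger (S × Y)) ∧
      ¬ IsProductivelyHurewicz S := by
  obtain ⟨Y, hY, h1, h2⟩ := exists_Y CH hS
  have hnM := not_isMenger_prod h1 h2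
  refine ⟨⟨Y, hY, hY.isHurewicz, hnM⟩, ?_⟩
  intro hprod
  exact hnM (hprod Y hY.isHurewicz).isMenger

end Pool.Agent.Results.MP_ed4d4f_gt.SierpinskiProducts
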